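import Pool.Agent.X258.LC.Core

/-!
Lacunary entire curves in varieties of log general type.
-/

set_option autoImplicit false

namespace Pool.Agent.X258.LC

open MvPolynomial Metric Set Filter Topology FF Pool.Agent.W602.GT Pool.Agent.TH143
  Pool.Agent.TH143.GT Pool.Agent.W603.BP Pool.Agent.W603.BPR Pool.Agent.W603.GR Pool.Agent.W603.PV

variable {N : ℕ} {p : Ideal (MvPolynomial (Fin (N + 1)) ℂ)} {Q : MvPolynomial (Fin (N + 1)) ℂ}
  {q : ℕ} {K : Type} [Field K] [Algebra ℂ K] {wd : ℕ} {y : Fin (N + 1) → K}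
  {F : ℂ → Fin (N + 1) → ℂ} {c : ℕ → Fin (N + 1) → ℂ}

/-- functions of finite order -/
def FinOrd (g : ℂ → ℂ) : Prop :=
  ∃ (C : ℝ) (k : ℕ), ∀ z, ‖g z‖ ≤ Real.exp (C * (1 + ‖z‖) ^ k)

theorem FinOrd.grow {g : ℂ → ℂ} (h : FinOrd g) : Grow (fun w => g w⁻¹) := by
  obtain ⟨C, k, h⟩ := h
  refine ⟨|C| * 2 ^ k, k, by positivity, ?_⟩
  filter_upwards [PB_mem one_pos] with w hw
  have hw0 : 0 < ‖w‖ := norm_pos_iff.2 hw.1
  have hw1 : ‖w‖ < 1 := hw.2
  refine (h w⁻¹).trans (Real.exp_le_exp.2 ?_)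
  rw [norm_inv]
  have h1 : 1 + ‖w‖⁻¹ ≤ 2 * ‖w‖⁻¹ := by
    have : 1 ≤ ‖w‖⁻¹ := (one_le_inv₀ hw0).2 hw1.le
    linarith
  have h2 : (0 : ℝ) ≤ 1 + ‖w‖⁻¹ := by positivity
  calc C * (1 + ‖w‖⁻¹) ^ k ≤ |C| * (1 + ‖w‖⁻¹) ^ k :=
        mul_le_mul_of_nonneg_right (le_abs_self C) (by positivity)
    _ ≤ |C| * (2 * ‖w‖⁻¹) ^ k :=
        mul_le_mul_of_nonneg_left (pow_le_pow_left₀ h2 h1 k) (abs_nonneg C)
    _ = |C| * 2 ^ k * (‖w‖ ^ k)⁻¹ := by rw [mul_pow, inv_pow]; ring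

theorem homog_deg {G : MvPolynomial (Fin (N + 1)) ℂ} {d : ℕ} (h : G.IsHomogeneous d) :
    G.IsHomogeneous G.totalDegree := by
  by_cases h0 : G = 0
  · rw [h0]
    exact isHomogeneous_zero _ _ _
  · rwa [h.totalDegree h0]

theorem exists_deg (y : Fin (N + 1) → K) : ∃ D : ℕ, ∀ G : MvPolynomial (Fin (N + 1)) ℂ,
    IsForm G → W602.GT.val y G = 0 →
      G ∈ Ideal.span {H : MvPolynomial (Fin (N + 1)) ℂ | W602.GT.val y H = 0 ∧
        ∃ d < D, H.IsHomogeneous d} := by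
  classical
  set S : Set (MvPolynomial (Fin (N + 1)) ℂ) := {H | W602.GT.val y H = 0 ∧ IsForm H} with hS
  have hfg : (Ideal.span S).FG := IsNoetherian.noetherian _
  obtain ⟨S', hS', hspan⟩ := (Submodule.fg_span_iff_fg_span_finset_subset S).1 hfg
  refine ⟨S'.sup MvPolynomial.totalDegree + 1, fun G hG h0 => ?_⟩
  have h1 : G ∈ Submodule.span (MvPolynomial (Fin (N + 1)) ℂ) S := Submodule.subset_span ⟨h0, hG⟩
  rw [hspan] at h1
  refine Submodule.span_mono ?_ h1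
  intro H hH
  obtain ⟨hH1, d, hd⟩ := hS' hH
  exact ⟨hH1, H.totalDegree, Nat.lt_succ_of_le (Finset.le_sup hH), homog_deg hd⟩

theorem span_up (y : Fin (N + 1) → K) {D D' : ℕ} (h : D ≤ D') :
    Ideal.span {H : MvPolynomial (Fin (N + 1)) ℂ | W602.GT.val y H = 0 ∧
        ∃ d < D, H.IsHomogeneous d} ≤
      Ideal.span {H : MvPolynomial (Fin (N + 1)) ℂ | W602.GT.val y H = 0 ∧
        ∃ d < D', H.IsHomogeneous d} := by
  apply Ideal.span_mono
  rintro H ⟨h1, d, hd, h2⟩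
  exact ⟨h1, d, hd.trans_le h, h2⟩

/-- rational entire curves -/
theorem fam_of_ext (hy : GenPt F univ K wd y) (hf : ∀ j, Differentiable ℂ (fun z => F z j))
    (hne : ∀ z, F z ≠ 0) (hQe : Q.IsHomogeneous q) (hQ : ∀ z, eval (F z) Q ≠ 0)
    (hnc : ∃ z w j k, F z j * F w k ≠ F z k * F w j) (hext : Extends (fun w => F w⁻¹)) :
    ∃ r : K, ¬ AllFlat Q y r := by
  obtain ⟨u, P, hu, hFP⟩ := rational_of_extends F hf hne hext
  have hFz : ∀ z, F z = fun j => u z * (P j).eval z := fun z => funext (hFP z)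
  have hev : ∀ (G : MvPolynomial (Fin (N + 1)) ℂ) (d : ℕ), G.IsHomogeneous d → ∀ z,
      (eval (F z) G = 0 ↔ eval (fun j => (P j).eval z) G = 0) := by
    intro G d hG z
    rw [hFz z, eval_smul_homog hG, mul_eq_zero]
    exact ⟨fun h => h.resolve_left (pow_ne_zero _ (hu z)), fun h => Or.inr h⟩
  refine fam_of_entire (f := fun z j => (P j).eval z) ⟨hy.ne, hy.gen, hy.dim, ?_⟩
    (fun j => (P j).differentiable) ?_ ?_ hQe ?_ ?_
  · rintro G ⟨d, hG⟩
    rw [hy.rel G ⟨d, hG⟩]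
    exact ⟨fun h z hz => (hev G d hG z).1 (h z hz), fun h z hz => (hev G d hG z).2 (h z hz)⟩
  · intro z h0
    apply hne z
    rw [hFz z]
    funext j
    have := congrFun h0 j
    simp only [Pi.zero_apply] at this ⊢
    rw [this, mul_zero]
  · apply linSys_of_polODE (fun z j => (P j).eval z) (fun j => (P j).differentiable)
    intro j
    by_cases hP : P j = 0
    · refine ⟨0, fun _ => 1, ⟨0, le_rfl, one_ne_zero⟩, fun z => ?_⟩
      rw [hP]
      simp
    · refine ⟨1, fun k => if k = 0 then -Polynomial.derivative (P j) else P j,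
        ⟨1, le_rfl, by simpa using hP⟩, fun z => ?_⟩
      rw [Finset.sum_range_succ, Finset.sum_range_one, iteratedDeriv_zero, iteratedDeriv_one,
        Polynomial.deriv]
      simp
      ring
  · intro z h0
    exact hQ z ((hev Q q hQe z).2 h0)
  · obtain ⟨s, t, i, j, hst⟩ := hnc
    refine ⟨s, t, i, j, fun h => hst ?_⟩
    rw [hFP, hFP, hFP, hFP]
    linear_combination u s * u t * h

theorem fam_entire (hT : Taylor c F) {D : ℕ} (hlac : Lac D (Sup c)) (hy : GenPt F univ K wd y)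
    (hgen : ∀ G : MvPolynomial (Fin (N + 1)) ℂ, IsForm G → W602.GT.val y G = 0 →
      G ∈ Ideal.span {H : MvPolynomial (Fin (N + 1)) ℂ | W602.GT.val y H = 0 ∧
        ∃ d < D, H.IsHomogeneous d})
    (hqD : q < D) (hQe : Q.IsHomogeneous q) (hQ : ∀ z, eval (F z) Q ≠ 0)
    (hord : FinOrd (fun z => eval (F z) Q)) (hne : ∀ z, F z ≠ 0)
    (hnc : ∃ z w j k, F z j * F w k ≠ F z k * F w j) : ∃ r : K, ¬ AllFlat Q y r := by
  have hd : ∀ j, Differentiable ℂ (fun z => F z j) := fun j => (hT.conv j).diff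
  by_cases hext : Extends (fun w => F w⁻¹)
  · exact fam_of_ext hy hd hne hQe hQ hnc hext
  · exact core hT hlac (hy.inv hd) hgen hqD hQe (fun w _ => hQ _) hord.grow (fun w _ => hne _) hext

/-- **strongly of log general type**, entire curves -/
theorem strong_entire (hp : IsHomog p) (hQ : Q.IsHomogeneous q)
    {G : MvPolynomial (Fin (N + 1)) ℂ} (hG : IsForm G) (h : SubLogGT p Q q G)
    (hf : EntireCurve p Q F) (hT : Taylor c F) (hlac : ∀ D, Lac D (Sup c))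
    (hord : FinOrd (fun z => eval (F z) Q)) (z : ℂ) : eval (F z) G = 0 := by
  by_contra hz
  obtain ⟨hdf, hne, hfQ, hnc⟩ := ent_data hf
  have hfa : ∀ j, AnalyticOnNhd ℂ (fun w => F w j) univ := fun j z _ => (hdf j).analyticAt z
  obtain ⟨j0, hj0⟩ := Function.ne_iff.1 (hne 0)
  obtain ⟨K, i1, i2, w, y, h1, h2, h3, h4, h5⟩ := exists_closure F isPreconnected_univ hfa
    ⟨0, mem_univ _, hj0⟩
  have hy : GenPt F univ K w y := ⟨h1, h2, h3, h4⟩
  rcases Nat.eq_zero_or_pos w with hw | hw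
  · choose c hc using h5 hw
    obtain ⟨s, t, j, k, hst⟩ := hnc
    apply hst
    rw [hc j s (mem_univ _), hc k t (mem_univ _), hc k s (mem_univ _), hc j t (mem_univ _)]
    ring
  · have hsub := subVar_of_genPt hp hQ hy (fun z _ => (hf.2.1 z).2.1) ⟨0, mem_univ _, hfQ 0⟩
    have hGy : W602.GT.val y G ≠ 0 := by
      intro h0
      exact hz ((hy.rel G hG).1 h0 z (mem_univ z))
    obtain ⟨D, hD⟩ := exists_deg y
    obtain ⟨r, hr⟩ := fam_entire hT (hlac (max D (q + 1))) hy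
      (fun G hG h0 => span_up y (le_max_left _ _) (hD G hG h0))
      ((Nat.lt_succ_self q).trans_le (le_max_right _ _)) hQ hfQ hord hne hnc
    exact hr (allFlat_gt (hy.inv hdf) hQ (h K w y hw hsub hGy) r)

/-- **strongly of log general type**, punctured disc -/
theorem strong_punct (hp : IsHomog p) (hQ : Q.IsHomogeneous q)
    {G : MvPolynomial (Fin (N + 1)) ℂ} (hG : IsForm G) (h : SubLogGT p Q q G)
    (hf : PCurve p Q (fun w => F w⁻¹)) (hT : Taylor c F) (hlac : ∀ D, Lac D (Sup c))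
    (hord : FinOrd (fun z => eval (F z) Q))
    (hfG : ∃ z ∈ ball (0 : ℂ) 1 \ {0}, eval (F z⁻¹) G ≠ 0) : Extends (fun w => F w⁻¹) := by
  by_contra hext
  have han := hf.an
  have hne : ∀ w ∈ PB 1, F w⁻¹ ≠ 0 := fun w hw => (hf.2 w (mem_disc.2 hw)).1
  have hX : ∀ z ∈ PB 1, ∀ H ∈ p, eval (F z⁻¹) H = 0 := fun z hz => (hf.2 z (mem_disc.2 hz)).2.1
  have hfQ : ∀ z ∈ PB 1, eval (F z⁻¹) Q ≠ 0 := fun z hz => (hf.2 z (mem_disc.2 hz)).2.2
  obtain ⟨z0, hz0⟩ := PB_nonempty one_pos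
  obtain ⟨j0, hj0⟩ := Function.ne_iff.1 (hne z0 hz0)
  obtain ⟨K, i1, i2, w, y, h1, h2, h3, h4, h5⟩ := exists_closure (fun w => F w⁻¹)
    (PB_preconn one_pos) han ⟨z0, hz0, hj0⟩
  have hy : GenPt (fun w => F w⁻¹) (PB 1) K w y := ⟨h1, h2, h3, h4⟩
  rcases Nat.eq_zero_or_pos w with hw | hw
  · exact hext (extends_of_const han hne (h5 hw))
  · have hsub := subVar_of_genPt hp hQ hy hX ⟨z0, hz0, hfQ z0 hz0⟩
    have hGy : W602.GT.val y G ≠ 0 := by
      intro h0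
      obtain ⟨z, hz, hzG⟩ := hfG
      exact hzG ((hy.rel G hG).1 h0 z (mem_disc.1 hz))
    obtain ⟨D, hD⟩ := exists_deg y
    obtain ⟨r, hr⟩ := core hT (hlac (max D (q + 1))) hy
      (fun G hG h0 => span_up y (le_max_left _ _) (hD G hG h0))
      ((Nat.lt_succ_self q).trans_le (le_max_right _ _)) hQ hfQ hord.grow hne hext
    exact hr (allFlat_gt hy hQ (h K w y hw hsub hGy) r)

theorem gen_of_span (hy : FunField p Q K wd y) {D : ℕ}
    (hD : p = Ideal.span {H | H ∈ p ∧ ∃ d < D, H.IsHomogeneous d})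
    (G : MvPolynomial (Fin (N + 1)) ℂ) (hG : IsForm G) (h0 : W602.GT.val y G = 0) :
    G ∈ Ideal.span {H : MvPolynomial (Fin (N + 1)) ℂ | W602.GT.val y H = 0 ∧
      ∃ d < D, H.IsHomogeneous d} := by
  have h1 := hy.mem G hG h0
  rw [hD] at h1
  refine Ideal.span_mono ?_ h1
  rintro H ⟨h2, h3⟩
  exact ⟨hy.sub.mem H h2, h3⟩

/-- **log general type**, entire curves -/
theorem dense_entire (hQ : Q.IsHomogeneous q) (hy : FunField p Q K wd y)
    (h : LogGeneralType ℂ K wd (OffQ Q q y)) {D : ℕ}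
    (hD : p = Ideal.span {H | H ∈ p ∧ ∃ d < D, H.IsHomogeneous d}) (hqD : q < D)
    (hf : EntireCurve p Q F) (hT : Taylor c F) (hlac : Lac D (Sup c))
    (hord : FinOrd (fun z => eval (F z) Q)) : ¬ ZDense p F univ := by
  intro hz
  obtain ⟨hdf, hne, hfQ, hnc⟩ := ent_data hf
  have hgp : GenPt F univ K wd y := hy.genPt (fun z _ => (hf.2.1 z).2.1) hz
  obtain ⟨r, hr⟩ := fam_entire hT hlac hgp (gen_of_span hy hD) hqD hQ hfQ hord hne hnc
  exact hr (allFlat_gt (hgp.inv hdf) hQ h r)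

/-- **log general type**, punctured disc -/
theorem dense_punct (hQ : Q.IsHomogeneous q) (hy : FunField p Q K wd y)
    (h : LogGeneralType ℂ K wd (OffQ Q q y)) {D : ℕ}
    (hD : p = Ideal.span {H | H ∈ p ∧ ∃ d < D, H.IsHomogeneous d}) (hqD : q < D)
    (hf : PCurve p Q (fun w => F w⁻¹)) (hT : Taylor c F) (hlac : Lac D (Sup c))
    (hord : FinOrd (fun z => eval (F z) Q))
    (hd : ZDense p (fun w => F w⁻¹) (ball 0 1 \ {0})) : Extends (fun w => F w⁻¹) := by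
  by_contra hext
  have hd' : ZDense p (fun w => F w⁻¹) (PB 1) := fun H hH h => hd H hH fun z hz =>
    h z (mem_disc.1 hz)
  have hgp : GenPt (fun w => F w⁻¹) (PB 1) K wd y := hy.genPt
    (fun z hz => (hf.2 z (mem_disc.2 hz)).2.1) hd'
  obtain ⟨r, hr⟩ := core hT hlac hgp (gen_of_span hy hD) hqD hQ
    (fun z hz => (hf.2 z (mem_disc.2 hz)).2.2) hord.grow
    (fun w hw => (hf.2 w (mem_disc.2 hw)).1) hext
  exact hr (allFlat_gt hgp hQ h r)

end Pool.Agent.X258.LC
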