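import Mathlib

/-!
Sums of few elements of a lacunary set.
-/

set_option autoImplicit false

namespace Pool.Agent.X258.LC

open Finset

/-- The exponents in `E` are lacunary with ratio `D`, up to blocks of bounded length: of two
exponents `m < n` with `n` large either `n ≤ m + w` or `D * m < n`. -/
def Lac (D : ℕ) (E : ℕ → Prop) : Prop :=
  ∃ w K : ℕ, ∀ m n, E m → E n → m < n → K ≤ n → n ≤ m + w ∨ D * m < n

open Classical in
/-- the first exponent of the block -/
noncomputable def rho (E : ℕ → Prop) (w m : ℕ) : ℕ :=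
  if h : ∃ m', E m' ∧ m ≤ m' + w ∧ m' ≤ m then Nat.find h else m

theorem rho_spec {E : ℕ → Prop} {w m : ℕ} (hm : E m) :
    E (rho E w m) ∧ m ≤ rho E w m + w ∧ rho E w m ≤ m := by
  classical
  have h : ∃ m', E m' ∧ m ≤ m' + w ∧ m' ≤ m := ⟨m, hm, Nat.le_add_right _ _, le_rfl⟩
  unfold rho
  rw [dif_pos h]
  exact Nat.find_spec h

theorem rho_min {E : ℕ → Prop} {w m m' : ℕ} (hm' : E m') (h1 : m ≤ m' + w) (h2 : m' ≤ m) :
    rho E w m ≤ m' := by
  classical
  have h : ∃ m', E m' ∧ m ≤ m' + w ∧ m' ≤ m := ⟨m', hm', h1, h2⟩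
  unfold rho
  rw [dif_pos h]
  exact Nat.find_min' h ⟨hm', h1, h2⟩

theorem rho_gap {E : ℕ → Prop} {D w K : ℕ}
    (hE : ∀ m n, E m → E n → m < n → K ≤ n → n ≤ m + w ∨ D * m < n) {m1 m2 : ℕ} (h1 : E m1)
    (h2 : E m2) (hlt : rho E w m1 < rho E w m2) (hK : K ≤ rho E w m2) :
    D * rho E w m1 < rho E w m2 + w := by
  obtain ⟨a1, a2, a3⟩ := rho_spec (w := w) h1
  obtain ⟨b1, b2, b3⟩ := rho_spec (w := w) h2
  rcases hE _ _ a1 h2 (hlt.trans_le b3) (hK.trans b3) with h | h
  · exact absurd (rho_min (w := w) a1 h (hlt.le.trans b3)) (not_le.2 hlt)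
  · omega

theorem tol_aux {D d w K K3 : ℕ} (hd : d < D) (hK : K ≤ K3) (hK3 : (D + 1) * (w * d) < K3)
    {α β : ℕ →₀ ℕ} (hβ : β.sum (fun _ k => k) ≤ d)
    (hgap : ∀ r r', (α r ≠ 0 ∨ β r ≠ 0) → (α r' ≠ 0 ∨ β r' ≠ 0) → r < r' → K ≤ r' →
      D * r < r' + w)
    (h1 : α.sum (fun r k => k * r) ≤ β.sum (fun r k => k * r) + w * d)
    {r : ℕ} (hr : K3 ≤ r) (heq : ∀ r' > r, α r' = β r') : α r ≤ β r := by
  classical
  by_contra hlt
  push Not at hlt
  set U := α.support ∪ β.support with hU
  have hαU : α.support ⊆ U := subset_union_left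
  have hβU : β.support ⊆ U := subset_union_right
  have hrU : r ∈ U := hαU (by rw [Finsupp.mem_support_iff]; omega)
  have hmemU : ∀ s ∈ U, α s ≠ 0 ∨ β s ≠ 0 := by
    intro s hs
    rw [hU, mem_union, Finsupp.mem_support_iff, Finsupp.mem_support_iff] at hs
    exact hs
  rw [Finsupp.sum_of_support_subset _ hαU _ (fun i _ => by simp),
    Finsupp.sum_of_support_subset _ hβU _ (fun i _ => by simp)] at h1
  rw [Finsupp.sum_of_support_subset _ hβU _ (fun i _ => by simp)] at hβ
  -- split
  have hsplit : ∀ g : ℕ → ℕ, ∑ s ∈ U, g s = ∑ s ∈ U with s < r, g s +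
      (g r + ∑ s ∈ U with r < s, g s) := by
    intro g
    rw [← Finset.sum_filter_add_sum_filter_not U (fun s => s < r)]
    congr 1
    have h2 : (U.filter fun s => ¬ s < r) = insert r (U.filter fun s => r < s) := by
      ext s
      simp only [mem_filter, mem_insert, not_lt]
      constructor
      · rintro ⟨h, h'⟩
        rcases eq_or_lt_of_le h' with h'' | h''
        · exact Or.inl h''.symm
        · exact Or.inr ⟨h, h''⟩
      · rintro (rfl | ⟨h, h'⟩)
        · exact ⟨hrU, le_rfl⟩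
        · exact ⟨h, h'.le⟩
    rw [h2, sum_insert (by simp)]
  rw [hsplit (fun s => α s * s), hsplit (fun s => β s * s)] at h1
  have h3 : ∑ s ∈ U with r < s, α s * s = ∑ s ∈ U with r < s, β s * s := by
    refine sum_congr rfl fun s hs => ?_
    rw [heq s (mem_filter.1 hs).2]
  rw [h3] at h1
  have h4 : D * ∑ s ∈ U with s < r, β s * s ≤ d * (r + w) := by
    rw [mul_sum]
    calc ∑ s ∈ U with s < r, D * (β s * s) ≤ ∑ s ∈ U with s < r, β s * (r + w) := by
          refine sum_le_sum fun s hs => ?_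
          rw [mem_filter] at hs
          have := hgap s r (hmemU s hs.1) (hmemU r hrU) hs.2 (hK.trans hr)
          calc D * (β s * s) = β s * (D * s) := by ring
            _ ≤ _ := Nat.mul_le_mul_left _ this.le
      _ = (∑ s ∈ U with s < r, β s) * (r + w) := by rw [sum_mul]
      _ ≤ d * (r + w) := by
          apply Nat.mul_le_mul_right
          exact (sum_le_sum_of_subset (filter_subset _ _)).trans hβ
  have h5 : (β r + 1) * r ≤ α r * r := Nat.mul_le_mul_right _ hlt
  have h6 : r ≤ ∑ s ∈ U with s < r, β s * s + w * d := by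
    have : (β r + 1) * r = β r * r + r := by ring
    omega
  have h7 : D * r ≤ d * (r + w) + D * (w * d) := by
    calc D * r ≤ D * (∑ s ∈ U with s < r, β s * s + w * d) := Nat.mul_le_mul_left _ h6
      _ = D * ∑ s ∈ U with s < r, β s * s + D * (w * d) := by ring
      _ ≤ _ := Nat.add_le_add_right h4 _
  have h8 : (d + 1) * r ≤ D * r := Nat.mul_le_mul_right _ hd
  nlinarith

theorem tol {D d w K K3 : ℕ} (hd : d < D) (hK : K ≤ K3) (hK3 : (D + 1) * (w * d) < K3)
    {α β : ℕ →₀ ℕ} (hα : α.sum (fun _ k => k) ≤ d) (hβ : β.sum (fun _ k => k) ≤ d)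
    (hgap : ∀ r r', (α r ≠ 0 ∨ β r ≠ 0) → (α r' ≠ 0 ∨ β r' ≠ 0) → r < r' → K ≤ r' →
      D * r < r' + w)
    (h1 : α.sum (fun r k => k * r) ≤ β.sum (fun r k => k * r) + w * d)
    (h2 : β.sum (fun r k => k * r) ≤ α.sum (fun r k => k * r) + w * d)
    {r : ℕ} (hr : K3 ≤ r) : α r = β r := by
  classical
  -- downward induction
  obtain ⟨B, hB⟩ : ∃ B, ∀ s ≥ B, α s = 0 ∧ β s = 0 := by
    refine ⟨(α.support ∪ β.support).sup id + 1, fun s hs => ?_⟩
    have h3 : s ∉ α.support ∪ β.support := by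
      intro hmem
      have := Finset.le_sup (f := id) hmem
      simp only [id] at this
      omega
    rw [mem_union, Finsupp.mem_support_iff, Finsupp.mem_support_iff] at h3
    push Not at h3
    exact h3
  have key : ∀ k s, K3 ≤ s → B ≤ s + k → α s = β s := by
    intro k
    induction k with
    | zero =>
      intro s _ hs
      rw [(hB s hs).1, (hB s hs).2]
    | succ k ih =>
      intro s hs hk
      have heq : ∀ r' > s, α r' = β r' := fun r' hr' => ih r' (by omega) (by omega)
      apply le_antisymm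
      · exact tol_aux hd hK hK3 hβ hgap h1 hs heq
      · exact tol_aux hd hK hK3 hα (fun r r' a b => hgap r r' a.symm b.symm) h2 hs
          fun r' hr' => (heq r' hr').symm
  exact key B r hr (by omega)

variable {E : ℕ → Prop}

/-- the weight of an exponent vector -/
def wt (a : {m : ℕ // E m} →₀ ℕ) : ℕ := a.sum fun m k => k * m.1

/-- the number of factors beyond `n0` -/
noncomputable def bt (w n0 : ℕ) (a : {m : ℕ // E m} →₀ ℕ) : ℕ :=
  a.sum fun m k => if n0 ≤ rho E w m.1 then k else 0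

theorem push_sum (w : ℕ) (a : {m : ℕ // E m} →₀ ℕ) (h : ℕ → ℕ → ℕ) (h0 : ∀ r, h r 0 = 0)
    (hadd : ∀ r a b, h r (a + b) = h r a + h r b) :
    (a.mapDomain fun m => rho E w m.1).sum h = a.sum fun m k => h (rho E w m.1) k :=
  Finsupp.sum_mapDomain_index h0 hadd

theorem push_ne {w : ℕ} {a : {m : ℕ // E m} →₀ ℕ} {r : ℕ}
    (h : (a.mapDomain fun m => rho E w m.1) r ≠ 0) : ∃ m, E m ∧ rho E w m = r := by
  have h1 : r ∈ (a.mapDomain fun m => rho E w m.1).support := Finsupp.mem_support_iff.2 h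
  have h2 := Finsupp.mapDomain_support h1
  rw [mem_image] at h2
  obtain ⟨m, -, hm⟩ := h2
  exact ⟨m.1, m.2, hm⟩

theorem wt_bounds (w : ℕ) (a : {m : ℕ // E m} →₀ ℕ) {d : ℕ} (hd : a.sum (fun _ k => k) = d) :
    (a.sum fun m k => k * rho E w m.1) ≤ wt a ∧
      wt a ≤ (a.sum fun m k => k * rho E w m.1) + w * d := by
  constructor
  · refine Finset.sum_le_sum fun m _ => Nat.mul_le_mul_left _ (rho_spec m.2).2.2
  · rw [← hd]
    unfold wt Finsupp.sum
    rw [mul_sum, ← sum_add_distrib]
    refine Finset.sum_le_sum fun m _ => ?_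
    have := (rho_spec (w := w) m.2).2.1
    nlinarith [Nat.mul_le_mul_left (a m) this]

/-- **Uniqueness.** The number of large factors is determined by the weight. -/
theorem bt_eq {D w K : ℕ} (hE : ∀ m n, E m → E n → m < n → K ≤ n → n ≤ m + w ∨ D * m < n)
    {d : ℕ} (hd : d < D) {n0 : ℕ} (h1 : K ≤ n0) (h2 : (D + 1) * (w * d) < n0)
    {a b : {m : ℕ // E m} →₀ ℕ} (ha : a.sum (fun _ k => k) = d) (hb : b.sum (fun _ k => k) = d)
    (hab : wt a = wt b) : bt w n0 a = bt w n0 b := by
  classical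
  set α := a.mapDomain fun m => rho E w m.1 with hα
  set β := b.mapDomain fun m => rho E w m.1 with hβ
  have ea : α.sum (fun _ k => k) = d := by
    rw [hα, push_sum w a (fun _ k => k) (fun _ => rfl) (fun _ _ _ => rfl), ha]
  have eb : β.sum (fun _ k => k) = d := by
    rw [hβ, push_sum w b (fun _ k => k) (fun _ => rfl) (fun _ _ _ => rfl), hb]
  have fa : α.sum (fun r k => k * r) = a.sum fun m k => k * rho E w m.1 := by
    rw [hα, push_sum w a (fun r k => k * r) (fun _ => zero_mul _) (fun _ _ _ => add_mul _ _ _)]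
  have fb : β.sum (fun r k => k * r) = b.sum fun m k => k * rho E w m.1 := by
    rw [hβ, push_sum w b (fun r k => k * r) (fun _ => zero_mul _) (fun _ _ _ => add_mul _ _ _)]
  obtain ⟨wa1, wa2⟩ := wt_bounds w a ha
  obtain ⟨wb1, wb2⟩ := wt_bounds w b hb
  have heq : ∀ r, n0 ≤ r → α r = β r := fun r hr => by
    refine tol hd h1 h2 ea.le eb.le ?_ (by rw [fa, fb]; omega) (by rw [fa, fb]; omega) hr
    intro r r' hr hr' hlt hK
    have g1 : ∃ m, E m ∧ rho E w m = r := by
      rcases hr with h | h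
      · exact push_ne h
      · exact push_ne h
    have g2 : ∃ m, E m ∧ rho E w m = r' := by
      rcases hr' with h | h
      · exact push_ne h
      · exact push_ne h
    obtain ⟨m1, hm1, rfl⟩ := g1
    obtain ⟨m2, hm2, rfl⟩ := g2
    exact rho_gap hE hm1 hm2 hlt hK
  have ga : α.sum (fun r k => if n0 ≤ r then k else 0) = bt w n0 a := by
    rw [hα, push_sum w a (fun r k => if n0 ≤ r then k else 0) (fun _ => by simp)
      (fun r x y => by split_ifs <;> simp)]
    rfl
  have gb : β.sum (fun r k => if n0 ≤ r then k else 0) = bt w n0 b := by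
    rw [hβ, push_sum w b (fun r k => if n0 ≤ r then k else 0) (fun _ => by simp)
      (fun r x y => by split_ifs <;> simp)]
    rfl
  rw [← ga, ← gb]
  rw [Finsupp.sum_of_support_subset _ (subset_union_left (s₂ := β.support)) _
      (fun i _ => by simp),
    Finsupp.sum_of_support_subset _ (subset_union_right (s₁ := α.support)) _
      (fun i _ => by simp)]
  refine sum_congr rfl fun r _ => ?_
  by_cases hr : n0 ≤ r
  · rw [heq r hr]
  · rw [if_neg hr, if_neg hr]

theorem bt_pos_wt {w n0 : ℕ} {a : {m : ℕ // E m} →₀ ℕ} (h : bt w n0 a ≠ 0) : n0 ≤ wt a := by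
  classical
  unfold bt at h
  obtain ⟨m, hm, hne⟩ := Finset.exists_ne_zero_of_sum_ne_zero h
  have h1 : n0 ≤ rho E w m.1 := by
    by_contra hcon
    simp only [if_neg hcon] at hne
    exact hne rfl
  have h2 : 1 ≤ a m := Nat.one_le_iff_ne_zero.2 (Finsupp.mem_support_iff.1 hm)
  have h3 : a m * m.1 ≤ wt a := Finset.single_le_sum (f := fun m => a m * m.1)
    (fun i _ => Nat.zero_le _) hm
  have h4 := (rho_spec (w := w) m.2).2.2
  nlinarith

/-- weights without large factors are far from the large exponents -/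
theorem wt_small {D w K : ℕ} (hE : ∀ m n, E m → E n → m < n → K ≤ n → n ≤ m + w ∨ D * m < n)
    {d : ℕ} {n : ℕ} (hn : E n) (h1 : K ≤ rho E w n) {a : {m : ℕ // E m} →₀ ℕ}
    (ha : a.sum (fun _ k => k) = d) (h : wt a < rho E w n) :
    D * wt a ≤ d * (rho E w n + w) + D * (w * d) := by
  classical
  obtain ⟨wa1, wa2⟩ := wt_bounds w a ha
  set r := rho E w n with hr
  have h2 : ∀ m ∈ a.support, rho E w m.1 < r := by
    intro m hm
    by_contra hcon
    push Not at hcon
    have h2 : 1 ≤ a m := Nat.one_le_iff_ne_zero.2 (Finsupp.mem_support_iff.1 hm)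
    have h3 : a m * m.1 ≤ wt a := Finset.single_le_sum (f := fun m => a m * m.1)
      (fun i _ => Nat.zero_le _) hm
    have h4 := (rho_spec (w := w) m.2).2.2
    nlinarith
  have h3 : D * (a.sum fun m k => k * rho E w m.1) ≤ d * (r + w) := by
    rw [← ha]
    unfold Finsupp.sum
    rw [mul_sum, sum_mul]
    refine sum_le_sum fun m hm => ?_
    have := rho_gap hE m.2 hn (h2 m hm) h1
    calc D * (a m * rho E w m.1) = a m * (D * rho E w m.1) := by ring
      _ ≤ _ := Nat.mul_le_mul_left _ this.le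
  nlinarith [Nat.mul_le_mul_left D wa2]

end Pool.Agent.X258.LC
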