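import Pool.Agent.X258.LC.Comb

/-!
Forms evaluated at vectors of lacunary power series.
-/

set_option autoImplicit false

namespace Pool.Agent.X258.LC

open Finset MvPolynomial

variable {N : ℕ}

/-- the power series with scaled coefficients -/
noncomputable def ser (c : ℕ → Fin (N + 1) → ℂ) (τ : ℕ → ℂ) (j : Fin (N + 1)) : PowerSeries ℂ :=
  PowerSeries.mk fun n => τ n * c n j

/-- the support of the coefficients -/
def Sup (c : ℕ → Fin (N + 1) → ℂ) (m : ℕ) : Prop := c m ≠ 0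

open Classical in
/-- the small exponents -/
noncomputable def TT (c : ℕ → Fin (N + 1) → ℂ) (e : ℕ) : Finset {m : ℕ // Sup c m} :=
  (range (e + 1)).subtype (Sup c)

/-- the form in independent variables -/
noncomputable def GG (c : ℕ → Fin (N + 1) → ℂ) (e : ℕ) (P : MvPolynomial (Fin (N + 1)) ℂ) :
    MvPolynomial {m : ℕ // Sup c m} ℂ :=
  aeval (fun j => ∑ m ∈ TT c e, C (c m.1 j) * X m) P

theorem GG_homog (c : ℕ → Fin (N + 1) → ℂ) (e : ℕ) {P : MvPolynomial (Fin (N + 1)) ℂ} {d : ℕ}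
    (hP : P.IsHomogeneous d) : (GG c e P).IsHomogeneous d := by
  have h1 : ∀ j : Fin (N + 1), (∑ m ∈ TT c e, C (c m.1 j) * X m :
      MvPolynomial {m : ℕ // Sup c m} ℂ).IsHomogeneous 1 := by
    intro j
    apply IsHomogeneous.sum
    intro m _
    have := (isHomogeneous_C {m : ℕ // Sup c m} (c m.1 j)).mul (isHomogeneous_X ℂ m)
    rwa [zero_add] at this
  have h2 := hP.aeval (fun j => (∑ m ∈ TT c e, C (c m.1 j) * X m :
      MvPolynomial {m : ℕ // Sup c m} ℂ)) h1
  rwa [one_mul] at h2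

theorem sum_of_homog {σ : Type} {G : MvPolynomial σ ℂ} {d : ℕ} (hG : G.IsHomogeneous d)
    {a : σ →₀ ℕ} (ha : G.coeff a ≠ 0) : a.sum (fun _ k => k) = d := by
  have h1 := hG ha
  rw [← h1, Finsupp.weight_apply]
  simp

/-- congruences -/
theorem dvd_aeval {R : Type} [CommRing R] [Algebra ℂ R] {a : R} {u v : Fin (N + 1) → R}
    (h : ∀ j, a ∣ u j - v j) (P : MvPolynomial (Fin (N + 1)) ℂ) : a ∣ aeval u P - aeval v P := by
  induction P using MvPolynomial.induction_on with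
  | C x => simp
  | add p q hp hq =>
    rw [map_add, map_add]
    have := dvd_add hp hq
    convert this using 1
    ring
  | mul_X p j hp =>
    rw [map_mul, map_mul, aeval_X, aeval_X]
    have h1 := dvd_add (hp.mul_right (u j)) ((h j).mul_left (aeval v p))
    convert h1 using 1
    ring

theorem coeff_aeval (c : ℕ → Fin (N + 1) → ℂ) (τ : ℕ → ℂ) (P : MvPolynomial (Fin (N + 1)) ℂ)
    (e : ℕ) : PowerSeries.coeff e (aeval (ser c τ) P) =
      ∑ a ∈ (GG c e P).support with wt a = e,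
        (GG c e P).coeff a * a.prod fun m k => τ m.1 ^ k := by
  classical
  let u : Fin (N + 1) → PowerSeries ℂ := fun j =>
    ∑ m ∈ TT c e, PowerSeries.C (τ m.1 * c m.1 j) * PowerSeries.X ^ m.1
  let v : {m : ℕ // Sup c m} → PowerSeries ℂ := fun m =>
    PowerSeries.C (τ m.1) * PowerSeries.X ^ m.1
  have h1 : ∀ j, (PowerSeries.X : PowerSeries ℂ) ^ (e + 1) ∣ ser c τ j - u j := by
    intro j
    rw [PowerSeries.X_pow_dvd_iff]
    intro k hk
    rw [map_sub, sub_eq_zero]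
    simp only [ser, PowerSeries.coeff_mk, u, map_sum, PowerSeries.coeff_C_mul_X_pow]
    by_cases hck : Sup c k
    · rw [Finset.sum_eq_single (⟨k, hck⟩ : {m : ℕ // Sup c m})]
      · rw [if_pos rfl]
      · intro m _ hm
        rw [if_neg]
        rintro rfl
        exact hm rfl
      · intro hn
        exfalso
        apply hn
        simp only [TT, mem_subtype, mem_range]
        exact hk
    · have hck' : c k = 0 := not_not.1 hck
      rw [hck', Pi.zero_apply, mul_zero, Finset.sum_eq_zero]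
      intro m _
      rw [if_neg]
      rintro rfl
      exact m.2 hck'
  have h2 : aeval u P = aeval v (GG c e P) := by
    have h3 := MvPolynomial.comp_aeval_apply
      (f := fun j => (∑ m ∈ TT c e, C (c m.1 j) * X m : MvPolynomial {m : ℕ // Sup c m} ℂ))
      (aeval v) P
    unfold GG
    rw [h3]
    congr 2
    funext j
    simp only [u, v, map_sum, map_mul, aeval_X, aeval_C]
    refine sum_congr rfl fun m _ => ?_
    rw [PowerSeries.algebraMap_apply, Algebra.algebraMap_self_apply]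
    ring
  have h3 : PowerSeries.coeff e (aeval (ser c τ) P) = PowerSeries.coeff e (aeval u P) := by
    have h4 := PowerSeries.X_pow_dvd_iff.1 (dvd_aeval h1 P) e (Nat.lt_succ_self e)
    rwa [map_sub, sub_eq_zero] at h4
  rw [h3, h2, aeval_def, eval₂_eq, map_sum, sum_filter]
  refine sum_congr rfl fun a _ => ?_
  have h4 : ∏ i ∈ a.support, v i ^ a i =
      PowerSeries.C (a.prod fun m k => τ m.1 ^ k) * PowerSeries.X ^ wt a := by
    simp only [v, mul_pow, prod_mul_distrib, Finsupp.prod, wt, Finsupp.sum]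
    congr 1
    · rw [map_prod]
      refine prod_congr rfl fun i _ => ?_
      rw [map_pow]
    · rw [← prod_pow_eq_pow_sum]
      refine prod_congr rfl fun i _ => ?_
      rw [← pow_mul, mul_comm]
  rw [h4, PowerSeries.algebraMap_apply, Algebra.algebraMap_self_apply, ← mul_assoc,
    ← map_mul, PowerSeries.coeff_C_mul_X_pow]
  by_cases h5 : wt a = e
  · rw [if_pos h5, if_pos h5.symm]
  · rw [if_neg h5, if_neg (Ne.symm h5)]

/-- the scaling of the large exponents -/
noncomputable def tau (E : ℕ → Prop) (w n0 : ℕ) (s : ℂ) (n : ℕ) : ℂ :=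
  if n0 ≤ rho E w n then s else 1

theorem prod_tau {E : ℕ → Prop} {w n0 : ℕ} (s : ℂ) (a : {m : ℕ // E m} →₀ ℕ) :
    (a.prod fun m k => tau E w n0 s m.1 ^ k) = s ^ bt w n0 a := by
  unfold bt Finsupp.prod Finsupp.sum
  rw [← prod_pow_eq_pow_sum]
  refine prod_congr rfl fun m _ => ?_
  unfold tau
  dsimp only
  split_ifs
  · rfl
  · rw [one_pow, pow_zero]

theorem exists_of_coeff {c : ℕ → Fin (N + 1) → ℂ} {P : MvPolynomial (Fin (N + 1)) ℂ} {d : ℕ}
    (hP : P.IsHomogeneous d) {e : ℕ} {τ : ℕ → ℂ}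
    (h : PowerSeries.coeff e (aeval (ser c τ) P) ≠ 0) :
    ∃ a : {m : ℕ // Sup c m} →₀ ℕ, a.sum (fun _ k => k) = d ∧ wt a = e := by
  classical
  rw [coeff_aeval] at h
  obtain ⟨a, ha, -⟩ := Finset.exists_ne_zero_of_sum_ne_zero h
  rw [mem_filter, mem_support_iff] at ha
  exact ⟨a, sum_of_homog (GG_homog c e hP) ha.1, ha.2⟩

/-- **Scaling.** -/
theorem coeff_scale {c : ℕ → Fin (N + 1) → ℂ} {D w K : ℕ}
    (hE : ∀ m n, Sup c m → Sup c n → m < n → K ≤ n → n ≤ m + w ∨ D * m < n)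
    {P : MvPolynomial (Fin (N + 1)) ℂ} {d : ℕ} (hP : P.IsHomogeneous d) (hd : d < D) {n0 : ℕ}
    (h1 : K ≤ n0) (h2 : (D + 1) * (w * d) < n0) (e : ℕ) :
    ∃ b : ℕ, (b ≠ 0 → n0 ≤ e) ∧ ∀ s : ℂ,
      PowerSeries.coeff e (aeval (ser c (tau (Sup c) w n0 s)) P) =
        s ^ b * PowerSeries.coeff e (aeval (ser c (fun _ => 1)) P) := by
  classical
  by_cases hex : ∃ a ∈ (GG c e P).support, wt a = e
  · obtain ⟨a0, ha0, hae⟩ := hex
    have hs0 := sum_of_homog (GG_homog c e hP) (mem_support_iff.1 ha0)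
    refine ⟨bt w n0 a0, fun h => hae ▸ bt_pos_wt h, fun s => ?_⟩
    rw [coeff_aeval, coeff_aeval, mul_sum]
    refine sum_congr rfl fun a ha => ?_
    rw [mem_filter] at ha
    have hs := sum_of_homog (GG_homog c e hP) (mem_support_iff.1 ha.1)
    rw [prod_tau, bt_eq hE hd h1 h2 hs hs0 (ha.2.trans hae.symm)]
    have h3 : (a.prod fun (m : {m : ℕ // Sup c m}) (k : ℕ) => (1 : ℂ) ^ k) = 1 :=
      prod_eq_one fun i _ => one_pow _
    rw [h3]
    ring
  · push Not at hex
    refine ⟨0, fun h => absurd rfl h, fun s => ?_⟩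
    have h3 : (GG c e P).support.filter (fun a => wt a = e) = ∅ := by
      rw [filter_eq_empty_iff]
      exact fun a ha => hex a ha
    rw [coeff_aeval, coeff_aeval, h3, sum_empty, sum_empty, mul_zero]

/-- scaling preserves the relations -/
theorem scale_zero {c : ℕ → Fin (N + 1) → ℂ} {D w K : ℕ}
    (hE : ∀ m n, Sup c m → Sup c n → m < n → K ≤ n → n ≤ m + w ∨ D * m < n)
    {P : MvPolynomial (Fin (N + 1)) ℂ} {d : ℕ} (hP : P.IsHomogeneous d) (hd : d < D) {n0 : ℕ}
    (h1 : K ≤ n0) (h2 : (D + 1) * (w * d) < n0) (h0 : aeval (ser c (fun _ => 1)) P = 0) (s : ℂ) :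
    aeval (ser c (tau (Sup c) w n0 s)) P = 0 := by
  ext e
  obtain ⟨b, -, hb⟩ := coeff_scale hE hP hd h1 h2 e
  rw [hb, h0, map_zero, mul_zero]

/-- scaling preserves the forms with small values -/
theorem scale_same {c : ℕ → Fin (N + 1) → ℂ} {D w K : ℕ}
    (hE : ∀ m n, Sup c m → Sup c n → m < n → K ≤ n → n ≤ m + w ∨ D * m < n)
    {P : MvPolynomial (Fin (N + 1)) ℂ} {d : ℕ} (hP : P.IsHomogeneous d) (hd : d < D) {n0 : ℕ}
    (h1 : K ≤ n0) (h2 : (D + 1) * (w * d) < n0)
    (h0 : ∀ e, n0 ≤ e → PowerSeries.coeff e (aeval (ser c (fun _ => 1)) P) = 0) (s : ℂ) :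
    aeval (ser c (tau (Sup c) w n0 s)) P = aeval (ser c (fun _ => 1)) P := by
  ext e
  obtain ⟨b, hbe, hb⟩ := coeff_scale hE hP hd h1 h2 e
  rw [hb]
  by_cases hb0 : b = 0
  · rw [hb0, pow_zero, one_mul]
  · rw [h0 e (hbe hb0), mul_zero]

/-- **Gaps.** -/
theorem gap {c : ℕ → Fin (N + 1) → ℂ} {D w K : ℕ}
    (hE : ∀ m n, Sup c m → Sup c n → m < n → K ≤ n → n ≤ m + w ∨ D * m < n)
    (hinf : ∀ B, ∃ n, B ≤ n ∧ Sup c n)
    {P : MvPolynomial (Fin (N + 1)) ℂ} {d : ℕ} (hP : P.IsHomogeneous d) (hd : d < D) (A B : ℕ) :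
    ∃ n, B ≤ n ∧ A ≤ n ∧ ∀ e, n - A ≤ e → e < n →
      PowerSeries.coeff e (aeval (ser c (fun _ => 1)) P) = 0 := by
  obtain ⟨n, hn, hnE⟩ := hinf (K + B + A + D * A + d * w + D * (w * d) + w + 1)
  obtain ⟨r1, r2, r3⟩ := rho_spec (w := w) hnE
  refine ⟨rho (Sup c) w n, by omega, by omega, fun e he1 he2 => ?_⟩
  by_contra hne
  obtain ⟨a, ha, hae⟩ := exists_of_coeff hP hne
  have h1 := wt_small hE hnE (by omega) ha (by rw [hae]; exact he2)
  rw [hae] at h1
  set r := rho (Sup c) w n with hr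
  have h3 : r ≤ e + A := by omega
  have h4 : D * r ≤ D * e + D * A := by
    calc D * r ≤ D * (e + A) := Nat.mul_le_mul_left _ h3
      _ = _ := by ring
  have h5 : (d + 1) * r ≤ D * r := Nat.mul_le_mul_right _ hd
  have h6 : (d + 1) * r = d * r + r := by ring
  have h7 : d * (r + w) = d * r + d * w := by ring
  omega

end Pool.Agent.X258.LC
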