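import Mathlib
import Pool.Agent.X258.LC.Ser

/-!
Everywhere convergent power series.
-/

set_option autoImplicit false

namespace Pool.Agent.X258.LC

open MvPolynomial Filter Topology

/-- `φ` is the Taylor series of the entire function `h` -/
def Conv (φ : PowerSeries ℂ) (h : ℂ → ℂ) : Prop :=
  ∀ z, HasSum (fun n => PowerSeries.coeff n φ * z ^ n) (h z)

theorem Conv.const (x : ℂ) : Conv (PowerSeries.C x) (fun _ => x) := by
  intro z
  have h1 : (fun n => PowerSeries.coeff n (PowerSeries.C x : PowerSeries ℂ) * z ^ n) =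
      fun n => if n = 0 then x else 0 := by
    funext n
    rw [PowerSeries.coeff_C]
    split_ifs with h
    · rw [h, pow_zero, mul_one]
    · rw [zero_mul]
  rw [h1]
  exact hasSum_ite_eq 0 x

theorem Conv.add {φ ψ : PowerSeries ℂ} {f g : ℂ → ℂ} (hf : Conv φ f) (hg : Conv ψ g) :
    Conv (φ + ψ) (fun z => f z + g z) := by
  intro z
  have h1 := (hf z).add (hg z)
  refine h1.congr_fun ?_ |> fun h => h
  intro n
  rw [map_add]
  ring

theorem Conv.mul {φ ψ : PowerSeries ℂ} {f g : ℂ → ℂ} (hf : Conv φ f) (hg : Conv ψ g) :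
    Conv (φ * ψ) (fun z => f z * g z) := by
  intro z
  have h1 := (hf z).summable.norm
  have h2 := (hg z).summable.norm
  have h3 := summable_norm_sum_mul_antidiagonal_of_summable_norm h1 h2
  have h4 := tsum_mul_tsum_eq_tsum_sum_antidiagonal_of_summable_norm h1 h2
  rw [(hf z).tsum_eq, (hg z).tsum_eq] at h4
  change HasSum _ (f z * g z)
  rw [h4]
  have h5 := h3.of_norm.hasSum
  refine h5.congr_fun ?_ |> fun h => h
  intro n
  rw [PowerSeries.coeff_mul, Finset.sum_mul]
  refine Finset.sum_congr rfl fun p hp => ?_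
  rw [← Finset.HasAntidiagonal.mem_antidiagonal.1 hp, pow_add]
  ring

theorem Conv.aeval {N : ℕ} {φ : Fin (N + 1) → PowerSeries ℂ} {f : ℂ → Fin (N + 1) → ℂ}
    (hf : ∀ j, Conv (φ j) (fun z => f z j)) (P : MvPolynomial (Fin (N + 1)) ℂ) :
    Conv (MvPolynomial.aeval φ P) (fun z => eval (f z) P) := by
  induction P using MvPolynomial.induction_on with
  | C x =>
    simp only [eval_C]
    rw [aeval_C]
    exact Conv.const x
  | add p q hp hq =>
    simp only [map_add]
    exact hp.add hq
  | mul_X p j hp =>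
    simp only [map_mul, eval_X, aeval_X]
    exact hp.mul (hf j)

theorem Conv.hasFPower {φ : PowerSeries ℂ} {f : ℂ → ℂ} (hf : Conv φ f) :
    HasFPowerSeriesOnBall f
      (FormalMultilinearSeries.ofScalars ℂ (fun n => PowerSeries.coeff n φ)) 0 ⊤ := by
  refine ⟨?_, by simp, ?_⟩
  · rw [top_le_iff]
    apply FormalMultilinearSeries.radius_eq_top_of_summable_norm
    intro r
    have h1 := (hf (r : ℂ)).summable.norm
    refine h1.of_nonneg_of_le (fun n => by positivity) fun n => ?_
    rw [FormalMultilinearSeries.ofScalars_norm, norm_mul, norm_pow]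
    simp
  · intro y _
    rw [zero_add]
    have h1 := hf y
    refine h1.congr_fun ?_ |> fun h => h
    intro n
    rw [FormalMultilinearSeries.ofScalars_apply_eq]
    simp [smul_eq_mul]

theorem Conv.unique {φ ψ : PowerSeries ℂ} {f : ℂ → ℂ} (hf : Conv φ f) (hg : Conv ψ f) :
    φ = ψ := by
  have h1 := hf.hasFPower.hasFPowerSeriesAt.eq_formalMultilinearSeries
    hg.hasFPower.hasFPowerSeriesAt
  ext n
  have h2 := congrArg (fun p => FormalMultilinearSeries.coeff p n) h1
  simpa [FormalMultilinearSeries.coeff_ofScalars] using h2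

theorem Conv.zero : Conv 0 (fun _ => 0) := by
  have := Conv.const 0
  rwa [map_zero] at this

theorem Conv.diff {φ : PowerSeries ℂ} {f : ℂ → ℂ} (hf : Conv φ f) : Differentiable ℂ f := by
  intro z
  have h1 := hf.hasFPower.differentiableOn
  have h2 := h1.differentiableAt (x := z) (by
    rw [Metric.eball_top]
    exact univ_mem)
  exact h2

theorem conv_taylor {f : ℂ → ℂ} (hf : Differentiable ℂ f) :
    Conv (PowerSeries.mk fun n => iteratedDeriv n f 0 / (n.factorial : ℂ)) f := by
  intro z
  have h1 := Complex.hasSum_taylorSeries_of_entire hf 0 z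
  refine h1.congr_fun ?_ |> fun h => h
  intro n
  rw [PowerSeries.coeff_mk, sub_zero, smul_eq_mul, smul_eq_mul]
  ring

theorem Conv.coeff {φ : PowerSeries ℂ} {f : ℂ → ℂ} (hf : Conv φ f) (n : ℕ) :
    PowerSeries.coeff n φ = iteratedDeriv n f 0 / (n.factorial : ℂ) := by
  rw [hf.unique (conv_taylor hf.diff), PowerSeries.coeff_mk]

theorem Conv.deriv {φ : PowerSeries ℂ} {f : ℂ → ℂ} (hf : Conv φ f) :
    Conv (PowerSeries.derivative ℂ φ) (deriv f) := by
  have hd : Differentiable ℂ (_root_.deriv f) := (hf.diff.contDiff (n := 2)).differentiable_deriv_two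
  have h1 := conv_taylor hd
  convert h1 using 1
  ext n
  rw [PowerSeries.coeff_derivative, PowerSeries.coeff_mk, hf.coeff, iteratedDeriv_succ']
  have h2 : (n.factorial : ℂ) ≠ 0 := Nat.cast_ne_zero.2 n.factorial_ne_zero
  have h3 : ((n : ℂ) + 1) ≠ 0 := Nat.cast_add_one_ne_zero n
  rw [Nat.factorial_succ]
  push_cast
  field_simp

theorem conv_poly (P : Polynomial ℂ) : Conv (P : PowerSeries ℂ) (fun z => P.eval z) := by
  intro z
  have h1 : ∀ n ∉ P.support, PowerSeries.coeff n (P : PowerSeries ℂ) * z ^ n = 0 := by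
    intro n hn
    rw [Polynomial.coeff_coe, Polynomial.notMem_support_iff.1 hn, zero_mul]
  have h3 : P.eval z = ∑ n ∈ P.support, PowerSeries.coeff n (P : PowerSeries ℂ) * z ^ n := by
    rw [Polynomial.eval_eq_sum, Polynomial.sum]
    simp only [Polynomial.coeff_coe]
  change HasSum _ (P.eval z)
  rw [h3]
  exact hasSum_sum_of_ne_finset_zero h1

end Pool.Agent.X258.LC
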