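import Pool.Agent.X258.LC.Poly
import Pool.Agent.TH143.GT.Fin

/-!
Families of rational curves through the points of a lacunary curve.
-/

set_option autoImplicit false

namespace Pool.Agent.X258.LC

open MvPolynomial Metric Set Filter Topology FF Pool.Agent.W602.GT Pool.Agent.TH143
  Pool.Agent.TH143.GT Pool.Agent.W603.BP

variable {N : ℕ}

/-- `c` is the sequence of the vectors of Taylor coefficients of the vector `F` of entire
functions -/
def Taylor (c : ℕ → Fin (N + 1) → ℂ) (F : ℂ → Fin (N + 1) → ℂ) : Prop :=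
  ∀ z j, HasSum (fun n => c n j * z ^ n) (F z j)

theorem Taylor.conv {c : ℕ → Fin (N + 1) → ℂ} {F : ℂ → Fin (N + 1) → ℂ} (h : Taylor c F)
    (j : Fin (N + 1)) : Conv (ser c (fun _ => 1) j) (fun z => F z j) := by
  intro z
  have h1 : (fun n => PowerSeries.coeff n (ser c (fun _ => 1) j) * z ^ n) =
      fun n => c n j * z ^ n := by
    funext n
    rw [ser, PowerSeries.coeff_mk, one_mul]
  rw [h1]
  exact h z j

/-- the small part -/
noncomputable def pz (c : ℕ → Fin (N + 1) → ℂ) (w n0 : ℕ) (j : Fin (N + 1)) : Polynomial ℂ :=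
  ∑ m ∈ Finset.range (n0 + w + 1),
    Polynomial.monomial m (if n0 ≤ rho (Sup c) w m then 0 else c m j)

theorem pz_coeff (c : ℕ → Fin (N + 1) → ℂ) (w n0 : ℕ) (j : Fin (N + 1)) (n : ℕ) :
    (pz c w n0 j).coeff n = if n0 ≤ rho (Sup c) w n then 0 else c n j := by
  classical
  unfold pz
  rw [Polynomial.finsetSum_coeff]
  simp only [Polynomial.coeff_monomial]
  rw [Finset.sum_ite_eq' (Finset.range (n0 + w + 1)) n]
  by_cases hn : n < n0 + w + 1
  · rw [if_pos (Finset.mem_range.2 hn)]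
  · rw [if_neg (by rwa [Finset.mem_range])]
    split_ifs with h
    · rfl
    · by_cases hc : Sup c n
      · obtain ⟨-, h2, -⟩ := rho_spec (w := w) hc
        omega
      · have : c n = 0 := not_not.1 hc
        rw [this]
        rfl

theorem conv_scale {c : ℕ → Fin (N + 1) → ℂ} {F : ℂ → Fin (N + 1) → ℂ} (h : Taylor c F)
    (w n0 : ℕ) (s : ℂ) (j : Fin (N + 1)) :
    Conv (ser c (tau (Sup c) w n0 s) j)
      (fun z => (pz c w n0 j).eval z + s * (F z j - (pz c w n0 j).eval z)) := by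
  have h1 := (conv_poly (pz c w n0 j)).add ((Conv.const s).mul ((h.conv j).add
    ((Conv.const (-1)).mul (conv_poly (pz c w n0 j)))))
  convert h1 using 1
  · ext n
    simp only [ser, PowerSeries.coeff_mk, map_add, PowerSeries.coeff_C_mul, Polynomial.coeff_coe,
      pz_coeff, tau]
    split_ifs <;> ring
  · funext z
    ring

variable {K : Type} [Field K] [Algebra ℂ K] {wd : ℕ} {y : Fin (N + 1) → K}
  {Q : MvPolynomial (Fin (N + 1)) ℂ} {q : ℕ} {F : ℂ → Fin (N + 1) → ℂ}
  {c : ℕ → Fin (N + 1) → ℂ}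

theorem rel_all (hd : ∀ j, Differentiable ℂ (fun z => F z j)) {G : MvPolynomial (Fin (N + 1)) ℂ}
    (h : ∀ w ∈ PB 1, eval (F w⁻¹) G = 0) (z : ℂ) : eval (F z) G = 0 := by
  obtain ⟨z0, hz0⟩ := PB_nonempty one_pos
  have han := eval_an' (S := univ) (fun j z _ => (hd j).analyticAt z) G
  have h1 : (fun z => eval (F z) G) =ᶠ[𝓝 z0⁻¹] 0 := by
    have h2 : ∀ᶠ z in 𝓝 z0⁻¹, z⁻¹ ∈ PB 1 := by
      have h3 : ContinuousAt (fun z : ℂ => z⁻¹) z0⁻¹ := continuousAt_inv₀ (inv_ne_zero hz0.1)
      exact h3.eventually_mem ((PB_open 1).mem_nhds (by rw [inv_inv]; exact hz0))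
    filter_upwards [h2] with z hz
    have := h z⁻¹ hz
    rwa [inv_inv] at this
  exact han.eqOn_zero_of_preconnected_of_eventuallyEq_zero isPreconnected_univ
    (mem_univ _) h1 (mem_univ z)

/-- proportional curves -/
theorem extends_of_par (hd : ∀ j, Differentiable ℂ (fun z => F z j))
    (hne : ∀ w ∈ PB 1, F w⁻¹ ≠ 0) (P : Fin (N + 1) → Polynomial ℂ) (hP : ∃ j, P j ≠ 0)
    (h : ∀ j k z, F z j * (P k).eval z = F z k * (P j).eval z) : Extends (fun w => F w⁻¹) := by
  refine extends_of _ (an_inv hd) hne fun j k hj hk => ?_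
  have hPk : P k ≠ 0 := by
    intro h0
    obtain ⟨i, hi⟩ := hP
    apply hk
    refine ev_iff.2 ⟨1, one_pos, ?_⟩
    -- `F k` vanishes
    have h1 : ∀ z, (P i).eval z ≠ 0 → F z k = 0 := by
      intro z hz
      have h2 := h k i z
      rw [h0, Polynomial.eval_zero, mul_zero] at h2
      exact (mul_eq_zero.1 h2).resolve_right hz
    have hdense : Dense {z : ℂ | (P i).eval z ≠ 0} := by
      have hfin : ({z : ℂ | (P i).eval z = 0}).Finite := by
        refine (P i).roots.toFinset.finite_toSet.subset ?_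
        intro z hz
        rw [Finset.mem_coe, Multiset.mem_toFinset, Polynomial.mem_roots hi]
        exact hz
      exact hfin.countable.dense_compl ℂ
    have h2 : (fun z => F z k) = fun _ => (0 : ℂ) :=
      (hd k).continuous.ext_on hdense continuous_const fun z hz => h1 z hz
    intro w _
    exact congrFun h2 w⁻¹
  refine ⟨fun w => (P j).eval w⁻¹ / (P k).eval w⁻¹, (mero_poly_inv _).div (mero_poly_inv _), ?_⟩
  have hfin : ({z : ℂ | (P k).eval z = 0}).Finite := by
    refine (P k).roots.toFinset.finite_toSet.subset ?_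
    intro z hz
    rw [Finset.mem_coe, Multiset.mem_toFinset, Polynomial.mem_roots hPk]
    exact hz
  have h3 : ∀ᶠ w in 𝓝[≠] (0 : ℂ), (P k).eval w⁻¹ ≠ 0 := by
    have h4 : {z : ℂ | (P k).eval z = 0}ᶜ ∈ Bornology.cobounded ℂ :=
      Bornology.isBounded_def.1 hfin.isBounded
    exact tendsto_inv₀_nhdsNE_zero.eventually h4
  filter_upwards [h3] with w hw
  have := h j k w⁻¹
  rw [div_mul_eq_mul_div, eq_div_iff hw]
  linear_combination this

/-- the support of the Taylor coefficients is infinite for an essential singularity -/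
theorem inf_of_ess (hT : Taylor c F) (hd : ∀ j, Differentiable ℂ (fun z => F z j))
    (hne : ∀ w ∈ PB 1, F w⁻¹ ≠ 0) (hext : ¬ Extends (fun w => F w⁻¹)) (B : ℕ) :
    ∃ n, B ≤ n ∧ Sup c n := by
  by_contra hcon
  push Not at hcon
  apply hext
  have h1 : ∀ j, ∃ P : Polynomial ℂ, ∀ z, F z j = P.eval z := by
    intro j
    refine ⟨PowerSeries.trunc B (ser c (fun _ => 1) j), fun z => ?_⟩
    have h2 := conv_poly (PowerSeries.trunc B (ser c (fun _ => 1) j)) z
    have h3 := hT.conv j z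
    refine h3.unique ?_
    convert h2 using 1
    funext n
    rw [Polynomial.coeff_coe, PowerSeries.coeff_trunc]
    split_ifs with h
    · rfl
    · have h4 : c n = 0 := not_not.1 (hcon n (not_lt.1 h))
      rw [ser, PowerSeries.coeff_mk, h4]
      simp
  choose P hP using h1
  refine extends_of_par hd hne P ?_ fun j k z => by rw [hP, hP]; ring
  obtain ⟨w, hw⟩ := PB_nonempty one_pos
  obtain ⟨j, hj⟩ := Function.ne_iff.1 (hne w hw)
  refine ⟨j, fun h0 => hj ?_⟩
  rw [hP, h0, Polynomial.eval_zero]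
  rfl

theorem core (hT : Taylor c F) {D : ℕ} (hlac : Lac D (Sup c))
    (hy : GenPt (fun w => F w⁻¹) (PB 1) K wd y)
    (hgen : ∀ G : MvPolynomial (Fin (N + 1)) ℂ, IsForm G → W602.GT.val y G = 0 →
      G ∈ Ideal.span {H : MvPolynomial (Fin (N + 1)) ℂ | W602.GT.val y H = 0 ∧
        ∃ d < D, H.IsHomogeneous d})
    (hqD : q < D) (hQe : Q.IsHomogeneous q) (hQ : ∀ w ∈ PB 1, eval (F w⁻¹) Q ≠ 0)
    (hord : Grow (fun w => eval (F w⁻¹) Q)) (hne : ∀ w ∈ PB 1, F w⁻¹ ≠ 0)
    (hext : ¬ Extends (fun w => F w⁻¹)) : ∃ r : K, ¬ AllFlat Q y r := by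
  classical
  obtain ⟨w, K0, hE⟩ := hlac
  have hd : ∀ j, Differentiable ℂ (fun z => F z j) := fun j => (hT.conv j).diff
  have hinf := inf_of_ess hT hd hne hext
  -- the boundary
  set qf : ℂ → ℂ := fun z => eval (F z) Q with hqf
  have hφ : Conv (aeval (ser c (fun _ => 1)) Q) qf := Conv.aeval (fun j => hT.conv j) Q
  obtain ⟨z0, hz0⟩ := PB_nonempty one_pos
  have hφ0 : aeval (ser c (fun _ => 1)) Q ≠ 0 := by
    intro h0
    rw [h0] at hφ
    have h1 := (hφ z0⁻¹).unique (Conv.zero z0⁻¹)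
    exact hQ z0 hz0 h1
  obtain ⟨C, k, hC, hgr⟩ := hord
  obtain ⟨b, hb, hbd⟩ := logderiv_mero (y := fun w => qf w⁻¹)
    (eval_an' (f := fun w => F w⁻¹) (an_inv hd) Q) hQ hC hgr
  obtain ⟨R, U, hR, hRU⟩ := rational_of_mrel (a := deriv qf) (b := qf) hφ.deriv.diff hφ.diff
    ⟨z0⁻¹, hQ z0 hz0⟩ (by
      refine ⟨fun w => -(w ^ 2) * b w, ?_, ?_⟩
      · exact ((MeromorphicAt.id 0).pow 2).neg.mul hb
      · filter_upwards [hbd, self_mem_nhdsWithin] with w hw hw0
        have hw0' : w ≠ 0 := hw0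
        have h1 : HasDerivAt (fun w => qf w⁻¹) (deriv qf w⁻¹ * (-(w ^ 2)⁻¹)) w :=
          (hφ.diff w⁻¹).hasDerivAt.comp w (hasDerivAt_inv hw0')
        have h2 := hw.unique h1
        have h3 : w ^ 2 ≠ 0 := pow_ne_zero 2 hw0'
        have h4 : deriv qf w⁻¹ = -(w ^ 2) * (deriv qf w⁻¹ * (-(w ^ 2)⁻¹)) := by
          field_simp
        rw [h4, ← h2]
        ring)
  obtain ⟨nQ, hnQ⟩ := poly_of_gap hφ hφ0 hR hRU (gap hE hinf hQe hqD)
  -- the small part does not vanish
  obtain ⟨e0, -, he0⟩ := hinf 0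
  set n0 := K0 + (D + 1) * (w * D) + nQ + e0 + 1 with hn0
  have hn0d : ∀ d < D, (D + 1) * (w * d) < n0 := by
    intro d hd
    have h1 : (D + 1) * (w * d) ≤ (D + 1) * (w * D) :=
      Nat.mul_le_mul_left _ (Nat.mul_le_mul_left _ hd.le)
    omega
  have hpz : ∃ j, pz c w n0 j ≠ 0 := by
    obtain ⟨j, hj⟩ := Function.ne_iff.1 he0
    refine ⟨j, fun h0 => hj ?_⟩
    have h1 := pz_coeff c w n0 j e0
    obtain ⟨-, -, h2⟩ := rho_spec (w := w) he0
    rw [h0, Polynomial.coeff_zero, if_neg (by omega)] at h1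
    exact h1.symm
  -- the deformation
  let Fs : ℂ → ℂ → Fin (N + 1) → ℂ := fun s z j =>
    (pz c w n0 j).eval z + s * (F z j - (pz c w n0 j).eval z)
  have hF1 : ∀ z, Fs 1 z = F z := by
    intro z
    funext j
    simp only [Fs]
    ring
  have hconv : ∀ (s : ℂ) (G : MvPolynomial (Fin (N + 1)) ℂ),
      Conv (aeval (ser c (tau (Sup c) w n0 s)) G) (fun z => eval (Fs s z) G) := fun s G =>
    Conv.aeval (fun j => conv_scale hT w n0 s j) G
  have hQs : ∀ s z, eval (Fs s z) Q = qf z := by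
    intro s z
    have h1 := hconv s Q
    rw [scale_same hE hQe hqD (by omega) (hn0d q hqD) (fun e he => hnQ e (by omega)) s] at h1
    exact (h1 z).unique (hφ z)
  have hrel : ∀ H : MvPolynomial (Fin (N + 1)) ℂ, W602.GT.val y H = 0 → (∃ d < D,
      H.IsHomogeneous d) → ∀ s z, eval (Fs s z) H = 0 := by
    rintro H h0 ⟨d, hdD, hH⟩ s z
    have h1 : ∀ z, eval (F z) H = 0 := rel_all hd ((hy.rel H ⟨d, hH⟩).1 h0)
    have h2 : Conv (aeval (ser c (fun _ => 1)) H) (fun z => eval (F z) H) :=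
      Conv.aeval (fun j => hT.conv j) H
    have h3 : aeval (ser c (fun _ => 1)) H = 0 := by
      have h4 : (fun z => eval (F z) H) = fun _ => (0 : ℂ) := funext h1
      rw [h4] at h2
      exact h2.unique Conv.zero
    have h4 := hconv s H
    rw [scale_zero hE hH hdD (by omega) (hn0d d hdD) h3 s] at h4
    exact (h4 z).unique (Conv.zero z)
  have hrel' : ∀ G : MvPolynomial (Fin (N + 1)) ℂ, IsForm G → W602.GT.val y G = 0 →
      ∀ s z, eval (Fs s z) G = 0 := by
    intro G hG h0 s z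
    have h1 : Ideal.span {H : MvPolynomial (Fin (N + 1)) ℂ | W602.GT.val y H = 0 ∧
        ∃ d < D, H.IsHomogeneous d} ≤ RingHom.ker (eval (Fs s z)) := by
      rw [Ideal.span_le]
      rintro H ⟨hH1, hH2⟩
      exact hrel H hH1 hH2 s z
    exact h1 (hgen G hG h0)
  by_cases hpar : ∀ j k z, (F z j - (pz c w n0 j).eval z) * (pz c w n0 k).eval z =
      (F z k - (pz c w n0 k).eval z) * (pz c w n0 j).eval z
  · exfalso
    apply hext
    refine extends_of_par hd hne (pz c w n0) hpz fun j k z => ?_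
    linear_combination hpar j k z
  push Not at hpar
  obtain ⟨j, k, z1, hjk⟩ := hpar
  -- the family
  have hdom : IsDomain (Hol univ) := hol_domain isPreconnected_univ univ_nonempty
  have ha0 : ∀ j, AnalyticOnNhd ℂ (fun z => (pz c w n0 j).eval z) univ := fun j z _ =>
    (pz c w n0 j).differentiable.analyticAt z
  have hat : ∀ j, AnalyticOnNhd ℂ (fun z => F z j - (pz c w n0 j).eval z) univ := fun j z _ =>
    ((hd j).sub (pz c w n0 j).differentiable).analyticAt z
  let W : Fin (N + 1) → Polynomial (Hol univ) := fun j =>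
    Polynomial.C (toHol _ (ha0 j)) + Polynomial.X * Polynomial.C (toHol _ (hat j))
  have hWe : ∀ (z : (univ : Set ℂ)) x j, evp z x (W j) = Fs x z j := by
    intro z x j
    simp only [W, map_add, map_mul, evp_C, evp_X]
    rfl
  have hWG : ∀ (z : (univ : Set ℂ)) x (G : MvPolynomial (Fin (N + 1)) ℂ),
      evp z x (aeval W G) = eval (Fs x z) G := by
    intro z x G
    rw [evp_aeval]
    congr 2
    funext j
    exact hWe z x j
  have hW0 : ∀ G : MvPolynomial (Fin (N + 1)) ℂ, aeval W G = 0 ↔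
      ∀ s z, eval (Fs s z) G = 0 := by
    intro G
    constructor
    · intro h s z
      have := hWG ⟨z, mem_univ z⟩ s G
      rw [h, map_zero] at this
      exact this.symm
    · intro h
      apply evp_ext
      intro z x _
      rw [hWG, h, map_zero]
  have hqan : AnalyticOnNhd ℂ qf univ := fun z _ => hφ.diff.analyticAt z
  have hWQ : aeval W Q = Polynomial.C (toHol qf hqan) := by
    apply evp_ext
    intro z x _
    rw [hWG, evp_C, hQs]
    rfl
  obtain ⟨M, i1, i2, m, hm, W', h2, ⟨c', l, hc', hcQ⟩, h4⟩ := desc W (X k) (X j) Q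
    ⟨1, toHol qf hqan, 0, by
      intro h0
      have h1 : evz (⟨z0⁻¹, mem_univ _⟩ : (univ : Set ℂ)) (toHol qf hqan) = 0 := by
        rw [h0, map_zero]
      exact hQ z0 hz0 h1, by rw [mul_one, pow_zero, mul_one, hWQ]⟩ (by
      rw [aeval_X, aeval_X]
      intro h0
      apply hjk
      have h1 := congrArg (evp (⟨z1, mem_univ z1⟩ : (univ : Set ℂ)) 0) h0
      simp only [W, Polynomial.derivative_add, Polynomial.derivative_mul,
        Polynomial.derivative_C, Polynomial.derivative_X, map_mul, map_add, evp_C, evp_X,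
        map_zero, map_one, zero_add, zero_mul, mul_zero, add_zero, one_mul] at h1
      have e1 : evz (⟨z1, mem_univ z1⟩ : (univ : Set ℂ)) (toHol _ (hat j)) =
        F z1 j - (pz c w n0 j).eval z1 := rfl
      have e2 : evz (⟨z1, mem_univ z1⟩ : (univ : Set ℂ)) (toHol _ (hat k)) =
        F z1 k - (pz c w n0 k).eval z1 := rfl
      have e3 : evz (⟨z1, mem_univ z1⟩ : (univ : Set ℂ)) (toHol _ (ha0 j)) =
        (pz c w n0 j).eval z1 := rfl
      have e4 : evz (⟨z1, mem_univ z1⟩ : (univ : Set ℂ)) (toHol _ (ha0 k)) =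
        (pz c w n0 k).eval z1 := rfl
      rw [e1, e2, e3, e4] at h1
      linear_combination h1)
  have hFam : Fam y Q W' l := by
    refine ⟨fun G hG => ?_, c', hc', hcQ⟩
    rw [h2, hW0]
    constructor
    · exact hrel' G hG
    · intro h
      rw [hy.rel G hG]
      intro z _
      have := h 1 z⁻¹
      rwa [hF1] at this
  rw [aeval_X, aeval_X] at h4
  have hyk : y k ≠ 0 := by
    rw [hFam.ne]
    intro h0
    apply h4
    rw [h0, mul_zero, Polynomial.derivative_zero, mul_zero]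
  refine ⟨y j / y k, fun h => h4 ?_⟩
  have h5 := h M m W' l hm hFam 1 (X j) (X k) (isHomogeneous_X _ _) (isHomogeneous_X _ _)
    (by rw [val_X]; exact hyk) (by rw [val_X, val_X])
  rwa [aeval_X, aeval_X] at h5

end Pool.Agent.X258.LC
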