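import Pool.Agent.X258.LC.Conv

/-!
Entire functions with gaps which satisfy a differential equation of order one.
-/

set_option autoImplicit false

namespace Pool.Agent.X258.LC

open Filter Topology Metric Set

theorem eq_of_wron {q : ℂ → ℂ} (hq : Differentiable ℂ q) {S : Polynomial ℂ} (hS : S ≠ 0)
    (h : ∀ z, S.eval z * deriv q z = S.derivative.eval z * q z) :
    ∃ c : ℂ, ∀ z, q z = c * S.eval z := by
  obtain ⟨z0, hz0⟩ : ∃ z0, S.eval z0 ≠ 0 := by
    by_contra hcon
    push Not at hcon
    exact hS (Polynomial.funext fun z => by rw [hcon, Polynomial.eval_zero])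
  have hVo : IsOpen {z : ℂ | S.eval z ≠ 0} := isOpen_ne_fun S.continuous continuous_const
  obtain ⟨r, hr, hrV⟩ := Metric.isOpen_iff.1 hVo z0 hz0
  have hd : ∀ z ∈ ball z0 r, HasDerivAt (fun z => q z / S.eval z) 0 z := by
    intro z hz
    have hSz : S.eval z ≠ 0 := hrV hz
    refine ((hq z).hasDerivAt.div (S.hasDerivAt z) hSz).congr_deriv ?_
    rw [div_eq_zero_iff]
    left
    linear_combination h z
  refine ⟨q z0 / S.eval z0, ?_⟩
  have h1 : ∀ z ∈ ball z0 r, q z = q z0 / S.eval z0 * S.eval z := by
    intro z hz
    have h2 := isOpen_ball.is_const_of_deriv_eq_zero (convex_ball z0 r).isPreconnected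
      (f := fun z => q z / S.eval z) (fun z hz => (hd z hz).differentiableAt.differentiableWithinAt)
      (fun z hz => (hd z hz).deriv) hz (mem_ball_self hr)
    have hSz : S.eval z ≠ 0 := hrV hz
    have h3 : q z / S.eval z = q z0 / S.eval z0 := h2
    rw [← h3, div_mul_cancel₀ _ hSz]
  have a1 : AnalyticOnNhd ℂ q univ := fun z _ => hq.analyticAt z
  have a2 : AnalyticOnNhd ℂ (fun z => q z0 / S.eval z0 * S.eval z) univ := fun z _ =>
    (S.differentiable.const_mul _).analyticAt z
  intro z
  exact a1.eqOn_of_preconnected_of_eventuallyEq a2 isPreconnected_univ (mem_univ z0)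
    (by filter_upwards [isOpen_ball.mem_nhds (mem_ball_self hr)] with z hz using h1 z hz)
    (mem_univ z)

/-- **Gaps.** -/
theorem poly_of_gap {φ : PowerSeries ℂ} {q : ℂ → ℂ} (hφ : Conv φ q) (hφ0 : φ ≠ 0)
    {R U : Polynomial ℂ} (hR : R ≠ 0) (hode : ∀ z, R.eval z * deriv q z = U.eval z * q z)
    (hgap : ∀ A B : ℕ, ∃ n, B ≤ n ∧ A ≤ n ∧ ∀ e, n - A ≤ e → e < n →
      PowerSeries.coeff e φ = 0) :
    ∃ n, ∀ e, n ≤ e → PowerSeries.coeff e φ = 0 := by
  classical
  obtain ⟨e0, he0⟩ : ∃ e0, PowerSeries.coeff e0 φ ≠ 0 := by
    by_contra hcon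
    push Not at hcon
    exact hφ0 (PowerSeries.ext fun n => by rw [hcon, map_zero])
  set A := R.natDegree + U.natDegree + 3 with hA
  obtain ⟨n, hn1, hn2, hn3⟩ := hgap A (e0 + A + 2)
  set S : Polynomial ℂ := PowerSeries.trunc n φ with hS
  have hSc : ∀ k, S.coeff k = if k < n then PowerSeries.coeff k φ else 0 := fun k =>
    PowerSeries.coeff_trunc k n φ
  have hS0 : S ≠ 0 := by
    intro h0
    apply he0
    have h1 := hSc e0
    rw [h0, Polynomial.coeff_zero, if_pos (by omega)] at h1
    exact h1.symm
  have hdS : S.natDegree ≤ n - A := by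
    rw [Polynomial.natDegree_le_iff_coeff_eq_zero]
    intro k hk
    rw [hSc]
    split_ifs with h
    · exact hn3 k (by omega) h
    · rfl
  -- the series
  have hser : (R : PowerSeries ℂ) * PowerSeries.derivative ℂ φ = (U : PowerSeries ℂ) * φ := by
    have h1 := (conv_poly R).mul hφ.deriv
    have h2 := (conv_poly U).mul hφ
    have h3 : (fun z => R.eval z * deriv q z) = fun z => U.eval z * q z := funext hode
    rw [h3] at h1
    exact h1.unique h2
  have hE : R * Polynomial.derivative S = U * S := by
    rw [← sub_eq_zero]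
    ext k
    rw [Polynomial.coeff_zero]
    by_cases hk : k < n - 1
    · have h1 : PowerSeries.X ^ n ∣ φ - (S : PowerSeries ℂ) := by
        rw [PowerSeries.X_pow_dvd_iff]
        intro m hm
        rw [map_sub, Polynomial.coeff_coe, hSc, if_pos hm, sub_self]
      obtain ⟨t, ht⟩ := h1
      have h2 : ((R * Polynomial.derivative S - U * S : Polynomial ℂ) : PowerSeries ℂ) =
          PowerSeries.X ^ (n - 1) * (-(R : PowerSeries ℂ) * ((n : PowerSeries ℂ) * t +
            PowerSeries.X * PowerSeries.derivative ℂ t) + (U : PowerSeries ℂ) * PowerSeries.X * t) := by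
        have h3 : φ = (S : PowerSeries ℂ) + PowerSeries.X ^ n * t := by rw [← ht]; ring
        have h4 : PowerSeries.derivative ℂ φ = PowerSeries.derivative ℂ (S : PowerSeries ℂ) +
            ((n : PowerSeries ℂ) * PowerSeries.X ^ (n - 1) * t +
              PowerSeries.X ^ n * PowerSeries.derivative ℂ t) := by
          rw [h3, map_add, Derivation.leibniz, Derivation.leibniz_pow,
            PowerSeries.derivative_X]
          simp only [smul_eq_mul, nsmul_eq_mul, mul_one]
          ring
        have h5 : (PowerSeries.X : PowerSeries ℂ) ^ n =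
            PowerSeries.X ^ (n - 1) * PowerSeries.X := by
          rw [← pow_succ]
          congr 1
          omega
        rw [h4, h3] at hser
        rw [Polynomial.coe_sub, Polynomial.coe_mul, Polynomial.coe_mul,
          ← PowerSeries.derivative_coe]
        rw [h5] at hser
        linear_combination hser
      have h3 : PowerSeries.X ^ (n - 1) ∣
          ((R * Polynomial.derivative S - U * S : Polynomial ℂ) : PowerSeries ℂ) := ⟨_, h2⟩
      have h4 := PowerSeries.X_pow_dvd_iff.1 h3 k hk
      rwa [Polynomial.coeff_coe] at h4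
    · apply Polynomial.coeff_eq_zero_of_natDegree_lt
      have h1 : (R * Polynomial.derivative S).natDegree ≤ R.natDegree + (n - A) := by
        refine Polynomial.natDegree_mul_le.trans (Nat.add_le_add_left ?_ _)
        exact (Polynomial.natDegree_derivative_le S).trans ((Nat.sub_le _ _).trans hdS)
      have h2 : (U * S).natDegree ≤ U.natDegree + (n - A) :=
        Polynomial.natDegree_mul_le.trans (Nat.add_le_add_left hdS _)
      have h3 := Polynomial.natDegree_sub_le (R * Polynomial.derivative S) (U * S)
      omega
  have hW : ∀ z, S.eval z * deriv q z = S.derivative.eval z * q z := by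
    have h1 : ∀ z, R.eval z ≠ 0 → S.eval z * deriv q z = S.derivative.eval z * q z := by
      intro z hz
      have h2 : R.eval z * S.derivative.eval z = U.eval z * S.eval z := by
        rw [← Polynomial.eval_mul, ← Polynomial.eval_mul, hE]
      apply mul_left_cancel₀ hz
      have h3 := hode z
      linear_combination S.eval z * h3 - q z * h2
    have hcont1 : Continuous fun z => S.eval z * deriv q z :=
      S.continuous.mul (hφ.deriv.diff.continuous)
    have hcont2 : Continuous fun z => S.derivative.eval z * q z :=
      S.derivative.continuous.mul hφ.diff.continuous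
    have hdense : Dense {z : ℂ | R.eval z ≠ 0} := by
      have hfin : ({z : ℂ | R.eval z = 0}).Finite := by
        refine R.roots.toFinset.finite_toSet.subset ?_
        intro z hz
        rw [Finset.mem_coe, Multiset.mem_toFinset, Polynomial.mem_roots hR]
        exact hz
      exact hfin.countable.dense_compl ℂ
    intro z
    exact congrFun (hcont1.ext_on hdense hcont2 fun z hz => h1 z hz) z
  obtain ⟨c, hc⟩ := eq_of_wron hφ.diff hS0 hW
  have h1 : φ = ((Polynomial.C c * S : Polynomial ℂ) : PowerSeries ℂ) := by
    refine hφ.unique ?_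
    have h2 := conv_poly (Polynomial.C c * S)
    convert h2 using 1
    funext z
    rw [hc, Polynomial.eval_mul, Polynomial.eval_C]
  refine ⟨n, fun e he => ?_⟩
  rw [h1, Polynomial.coeff_coe, Polynomial.coeff_C_mul, hSc, if_neg (by omega), mul_zero]

end Pool.Agent.X258.LC
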